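import Mathlib
import Pool.Agent.V11171.Rich
import Pool.Agent.V11171.Sturm

/-!
MP_1706f7_co, Q1: a uniformly recurrent aperiodic non-Sturmian binary word whose abelian closure
has entropy zero.
-/

set_option autoImplicit false

namespace Pool.Agent.Results.MP_1706f7_co.ZeroEntropy

open Pool.Agent.V11171.Rich Pool.Agent.V11171.Sturm Filter Topology

/-- number of ones of a finite binary word -/
def ones (v : List (Fin 2)) : ℕ := v.count 1

/-- abelian equivalence of binary words -/
def AbEq (u v : List (Fin 2)) : Prop := u.length = v.length ∧ ones u = ones v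

/-- the abelian closure -/
def abClosure (x : ℕ → Fin 2) : Set (ℕ → Fin 2) :=
  {y | ∀ i n : ℕ, ∃ j m : ℕ, AbEq (factor y i n) (factor x j m)}

/-- the set of factors of length `n` -/
def factors {A : Type} (x : ℕ → A) (n : ℕ) : Set (List A) := {v | ∃ i, v = factor x i n}

/-- blocks of length `n` occurring in elements of `X` -/
def blocks {A : Type} (X : Set (ℕ → A)) (n : ℕ) : Set (List A) := {v | ∃ z ∈ X, v ∈ factors z n}

def UniformlyRecurrent {A : Type} (x : ℕ → A) : Prop :=
  ∀ i n : ℕ, ∃ G : ℕ, ∀ N : ℕ, ∃ j, N ≤ j ∧ j ≤ N + G ∧ factor x j n = factor x i n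

def EventuallyPeriodic {A : Type} (x : ℕ → A) : Prop :=
  ∃ p > 0, ∃ N : ℕ, ∀ m ≥ N, x (m + p) = x m

def Sturmian (x : ℕ → Fin 2) : Prop :=
  ¬ EventuallyPeriodic x ∧ ∀ n : ℕ, (factors x n).ncard = n + 1

theorem factor_congr {A : Type} (u : ℕ → A) (i i' n : ℕ) :
    factor u i n = factor u i' n ↔ ∀ j < n, u (i + j) = u (i' + j) := by
  simp only [factor, List.map_inj_left, List.mem_range]

theorem factor_length {A : Type} (u : ℕ → A) (i n : ℕ) : (factor u i n).length = n := by
  simp [factor]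

/-- prefix sums -/
def S (z : ℕ → Fin 2) (n : ℕ) : ℤ := ∑ k ∈ Finset.range n, ((z k).val : ℤ)

theorem ones_factor (z : ℕ → Fin 2) (i n : ℕ) : (ones (factor z i n) : ℤ) = S z (i + n) - S z i := by
  induction n with
  | zero => simp [ones, factor]
  | succ n ih =>
    have h1 : factor z i (n + 1) = factor z i n ++ [z (i + n)] := by
      simp [factor, List.range_succ]
    have h2 : S z (i + (n + 1)) = S z (i + n) + (z (i + n)).val := by
      rw [← add_assoc]
      unfold S
      rw [Finset.sum_range_succ]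
    rw [h1, h2]
    unfold ones at ih ⊢
    rw [List.count_append]
    push_cast
    rw [ih]
    have h3 : (List.count 1 [z (i + n)] : ℤ) = ((z (i + n)).val : ℤ) := by
      generalize z (i + n) = a
      fin_cases a <;> simp
    rw [h3]
    ring

/-- the slope -/
noncomputable def β : ℝ := Real.sqrt 2 - 1

theorem β_irr : Irrational β := by
  unfold β
  have := irrational_sqrt_two.sub_ratCast 1
  simpa using this

theorem sqrt2_bounds : 1.414 < Real.sqrt 2 ∧ Real.sqrt 2 < 1.415 := by
  constructor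
  · rw [Real.lt_sqrt (by norm_num)]
    norm_num
  · rw [Real.sqrt_lt' (by norm_num)]
    norm_num

theorem β_pos : 0 < β := by
  unfold β
  linarith [sqrt2_bounds.1]

theorem β_lt : β < 1 := by
  unfold β
  linarith [sqrt2_bounds.2]

/-- `floor (k β)` -/
noncomputable def fl (k : ℕ) : ℤ := ⌊(k : ℝ) * β⌋

theorem fl_step (k : ℕ) : fl (k + 1) = fl k ∨ fl (k + 1) = fl k + 1 := by
  unfold fl
  have h1 : ⌊(k : ℝ) * β⌋ ≤ ⌊((k + 1 : ℕ) : ℝ) * β⌋ := by
    apply Int.floor_le_floor
    push_cast
    nlinarith [β_pos]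
  have h2 : ⌊((k + 1 : ℕ) : ℝ) * β⌋ ≤ ⌊(k : ℝ) * β⌋ + 1 := by
    rw [← Int.floor_add_one]
    apply Int.floor_le_floor
    push_cast
    nlinarith [β_lt]
  omega

/-- the word `x = ψ(y)` with `ψ(0) = 100`, `ψ(1) = 101` and `y` the Sturmian word of slope `β` -/
noncomputable def x (n : ℕ) : Fin 2 :=
  if n % 3 = 0 then 1 else if n % 3 = 1 then 0 else
    if fl (n / 3 + 1) = fl (n / 3) then 0 else 1

theorem S_x (k : ℕ) : S x (3 * k) = k + fl k ∧ S x (3 * k + 1) = k + fl k + 1 ∧
    S x (3 * k + 2) = k + fl k + 1 := by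
  have step : ∀ n, S x (n + 1) = S x n + (x n).val := by
    intro n
    unfold S
    rw [Finset.sum_range_succ]
  induction k with
  | zero =>
    have h0 : S x 0 = 0 := by simp [S]
    have hf : fl 0 = 0 := by simp [fl]
    refine ⟨?_, ?_, ?_⟩
    · simp [h0, hf]
    · rw [step, mul_zero, h0, hf]
      simp [x]
    · rw [mul_zero, step, step, h0, hf]
      simp [x]
  | succ k ih =>
    obtain ⟨_, _, ih3⟩ := ih
    have e0 : 3 * (k + 1) = 3 * k + 2 + 1 := by ring
    have h1 : S x (3 * (k + 1)) = ((k + 1 : ℕ) : ℤ) + fl (k + 1) := by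
      rw [e0, step, ih3]
      have hx : ((x (3 * k + 2)).val : ℤ) = fl (k + 1) - fl k := by
        unfold x
        have a1 : (3 * k + 2) % 3 = 2 := by omega
        have a2 : (3 * k + 2) / 3 = k := by omega
        rw [a1, a2, if_neg (by norm_num), if_neg (by norm_num)]
        rcases fl_step k with h | h
        · rw [if_pos h]; simp [h]
        · rw [if_neg (by omega)]; simp [h]
      rw [hx]
      push_cast
      ring
    have h2 : S x (3 * (k + 1) + 1) = ((k + 1 : ℕ) : ℤ) + fl (k + 1) + 1 := by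
      rw [step, h1]
      have : x (3 * (k + 1)) = 1 := by
        unfold x
        rw [if_pos (by omega)]
      rw [this]
      simp
    refine ⟨h1, h2, ?_⟩
    have e1 : 3 * (k + 1) + 2 = 3 * (k + 1) + 1 + 1 := by ring
    rw [e1, step, h2]
    have : x (3 * (k + 1) + 1) = 0 := by
      unfold x
      rw [if_neg (by omega), if_pos (by omega)]
    rw [this]
    simp

theorem x_window (j m : ℕ) : |((ones (factor x j (3 * m)) : ℤ) : ℝ) - m - m * β| < 1 := by
  rw [ones_factor]
  have key : S x (j + 3 * m) - S x j = m + (fl (j / 3 + m) - fl (j / 3)) := by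
    have h1 := S_x (j / 3)
    have h2 := S_x (j / 3 + m)
    have h3 : j % 3 = 0 ∨ j % 3 = 1 ∨ j % 3 = 2 := by omega
    rcases h3 with h3 | h3 | h3
    · have e1 : j + 3 * m = 3 * (j / 3 + m) := by omega
      have e2 : j = 3 * (j / 3) := by omega
      rw [e1, h2.1]
      have e3 : S x j = S x (3 * (j / 3)) := by rw [← e2]
      rw [e3, h1.1]
      push_cast
      omega
    · have e1 : j + 3 * m = 3 * (j / 3 + m) + 1 := by omega
      have e2 : j = 3 * (j / 3) + 1 := by omega
      rw [e1, h2.2.1]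
      have e3 : S x j = S x (3 * (j / 3) + 1) := by rw [← e2]
      rw [e3, h1.2.1]
      push_cast
      omega
    · have e1 : j + 3 * m = 3 * (j / 3 + m) + 2 := by omega
      have e2 : j = 3 * (j / 3) + 2 := by omega
      rw [e1, h2.2.2]
      have e3 : S x j = S x (3 * (j / 3) + 2) := by rw [← e2]
      rw [e3, h1.2.2]
      push_cast
      omega
  rw [key]
  unfold fl
  push_cast
  have a1 := Int.floor_le (((j / 3 : ℕ) : ℝ) * β)
  have a2 := Int.lt_floor_add_one (((j / 3 : ℕ) : ℝ) * β)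
  have a3 := Int.floor_le ((((j / 3 : ℕ) : ℝ) + m) * β)
  have a4 := Int.lt_floor_add_one ((((j / 3 : ℕ) : ℝ) + m) * β)
  rw [abs_lt]
  constructor <;> nlinarith

/-- balanced sequences of integers are given by floors -/
theorem floor_form (s : ℕ → ℤ) (n : ℕ) (h0 : s 0 = 0)
    (hs : ∀ k k' : ℕ, (s k' : ℝ) - s k - ((k' : ℝ) - k) * β < 1) :
    ∃ i₀ ≤ n, ∀ k ≤ n, s k = ⌊((k : ℝ) - i₀) * β⌋ - ⌊(-(i₀ : ℝ)) * β⌋ := by
  obtain ⟨i₀, hi, hmax⟩ := (Finset.range (n + 1)).exists_max_image
    (fun k : ℕ => (s k : ℝ) - k * β) ⟨0, by simp⟩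
  rw [Finset.mem_range] at hi
  have key : ∀ k ≤ n, s k = s i₀ + ⌊((k : ℝ) - i₀) * β⌋ := by
    intro k hk
    have h1 := hmax k (by rw [Finset.mem_range]; omega)
    have h2 := hs k i₀
    have h3 : ⌊((s i₀ : ℤ) : ℝ) + ((k : ℝ) - i₀) * β⌋ = s k := by
      rw [Int.floor_eq_iff]
      constructor <;> nlinarith
    rw [Int.floor_intCast_add] at h3
    omega
  refine ⟨i₀, by omega, ?_⟩
  intro k hk
  have h1 := key k hk
  have h2 := key 0 (by omega)
  rw [h0] at h2
  have e : (((0 : ℕ) : ℝ) - i₀) = -(i₀ : ℝ) := by simp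
  rw [e] at h2
  omega

/-- candidates -/
noncomputable def TT (n : ℕ) (p : (Fin 3 → Fin 3) × (Fin 3 → Fin (n + 1))) (j : ℕ) : ℤ :=
  ((p.1 (Fin.ofNat 3 j)).val : ℤ) + (j / 3 : ℕ) +
    (⌊(((j / 3 : ℕ) : ℝ) - ((p.2 (Fin.ofNat 3 j)).val : ℝ)) * β⌋ -
      ⌊(-((p.2 (Fin.ofNat 3 j)).val : ℝ)) * β⌋)

noncomputable def cand (n : ℕ) (p : (Fin 3 → Fin 3) × (Fin 3 → Fin (n + 1))) : List (Fin 2) :=
  (List.range n).map fun j => if TT n p (j + 1) = TT n p j then 0 else 1

theorem S_step (z : ℕ → Fin 2) (n : ℕ) : S z (n + 1) = S z n + (z n).val := by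
  unfold S
  rw [Finset.sum_range_succ]

theorem closure_form (z : ℕ → Fin 2) (hz : z ∈ abClosure x) (i n : ℕ) :
    ∃ p, factor z i n = cand n p := by
  -- windows of `z`
  have hw : ∀ a m : ℕ, |((S z (a + 3 * m) - S z a : ℤ) : ℝ) - m - m * β| < 1 := by
    intro a m
    obtain ⟨j, m', h1, h2⟩ := hz a (3 * m)
    rw [factor_length, factor_length] at h1
    subst h1
    rw [← ones_factor, h2]
    exact x_window j m
  have hs : ∀ r : ℕ, ∃ i₀ ≤ n, ∀ k ≤ n, S z (i + r + 3 * k) - S z (i + r) - k =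
      ⌊((k : ℝ) - i₀) * β⌋ - ⌊(-(i₀ : ℝ)) * β⌋ := by
    intro r
    apply floor_form (fun k => S z (i + r + 3 * k) - S z (i + r) - k) n
    · simp
    · intro k k'
      rcases le_total k k' with h | h
      · obtain ⟨m, rfl⟩ := Nat.exists_eq_add_of_le h
        have := hw (i + r + 3 * k) m
        have e : i + r + 3 * k + 3 * m = i + r + 3 * (k + m) := by ring
        rw [e, abs_lt] at this
        push_cast at this ⊢
        nlinarith [this.1, this.2]
      · obtain ⟨m, rfl⟩ := Nat.exists_eq_add_of_le h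
        have := hw (i + r + 3 * k') m
        have e : i + r + 3 * k' + 3 * m = i + r + 3 * (k' + m) := by ring
        rw [e, abs_lt] at this
        push_cast at this ⊢
        nlinarith [this.1, this.2]
  choose I hI hform using hs
  have hc : ∀ r : ℕ, r < 3 → 0 ≤ S z (i + r) - S z i ∧ S z (i + r) - S z i < 3 := by
    intro r hr
    have b0 := (z i).isLt
    have b1 := (z (i + 1)).isLt
    have s1 := S_step z i
    have s2 := S_step z (i + 1)
    interval_cases r
    · simp
    · omega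
    · have e : i + 2 = i + 1 + 1 := by ring
      rw [e]
      omega
  refine ⟨(fun r => ⟨(S z (i + r.val) - S z i).toNat, by have := hc r.val r.isLt; omega⟩,
    fun r => ⟨I r.val, by have := hI r.val; omega⟩), ?_⟩
  set p : (Fin 3 → Fin 3) × (Fin 3 → Fin (n + 1)) :=
    (fun r => ⟨(S z (i + r.val) - S z i).toNat, by have := hc r.val r.isLt; omega⟩,
    fun r => ⟨I r.val, by have := hI r.val; omega⟩) with hp
  have hT : ∀ j ≤ n, TT n p j = S z (i + j) - S z i := by
    intro j hj
    unfold TT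
    have hr : (Fin.ofNat 3 j).val = j % 3 := rfl
    simp only [hp, hr]
    have h1 := hform (j % 3) (j / 3) (by omega)
    have h2 := hc (j % 3) (by omega)
    have e : i + j % 3 + 3 * (j / 3) = i + j := by omega
    rw [e] at h1
    rw [← h1]
    omega
  unfold factor cand
  apply List.map_congr_left
  intro j hj
  rw [List.mem_range] at hj
  rw [hT (j + 1) (by omega), hT j (by omega)]
  have hst := S_step z (i + j)
  have e : i + (j + 1) = i + j + 1 := by ring
  rw [e, hst]
  generalize z (i + j) = a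
  fin_cases a
  · simp
  · simp

theorem blocks_subset (n : ℕ) : blocks (abClosure x) n ⊆ Set.range (cand n) := by
  rintro v ⟨z, hz, i, rfl⟩
  obtain ⟨p, hp⟩ := closure_form z hz i n
  exact ⟨p, hp.symm⟩

theorem blocks_card (n : ℕ) : (blocks (abClosure x) n).ncard ≤ 27 * (n + 1) ^ 3 := by
  refine (Set.ncard_le_ncard (blocks_subset n) (Set.finite_range _)).trans ?_
  rw [← Set.image_univ]
  refine (Set.ncard_image_le Set.finite_univ).trans ?_
  rw [Set.ncard_univ, Nat.card_eq_fintype_card]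
  simp only [Fintype.card_prod, Fintype.card_fun, Fintype.card_fin]
  norm_num

theorem x_mem : x ∈ abClosure x := fun i n => ⟨i, n, rfl, rfl⟩

theorem blocks_pos (n : ℕ) : 1 ≤ (blocks (abClosure x) n).ncard := by
  have hfin : (blocks (abClosure x) n).Finite := (Set.finite_range _).subset (blocks_subset n)
  rw [Nat.one_le_iff_ne_zero, Ne, Set.ncard_eq_zero hfin]
  rw [← Ne, ← Set.nonempty_iff_ne_empty]
  exact ⟨factor x 0 n, x, x_mem, 0, rfl⟩

theorem entropy_zero : Tendsto
    (fun n : ℕ => Real.log ((blocks (abClosure x) n).ncard : ℝ) / n) atTop (𝓝 0) := by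
  have hlim : Tendsto (fun n : ℕ => Real.log 27 / n + 3 * (Real.log ((n : ℝ) + 1) / n))
      atTop (𝓝 0) := by
    have h1 : Tendsto (fun n : ℕ => Real.log 27 / n) atTop (𝓝 0) :=
      tendsto_const_div_atTop_nhds_zero_nat _
    have h2 := (Real.tendsto_pow_log_div_mul_add_atTop 1 (-1) 1 one_ne_zero).comp
      (tendsto_atTop_add_const_right atTop (1 : ℝ) tendsto_natCast_atTop_atTop)
    have h3 : Tendsto (fun n : ℕ => Real.log ((n : ℝ) + 1) / n) atTop (𝓝 0) := by
      refine h2.congr ?_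
      intro n
      simp only [Function.comp_apply, pow_one, one_mul]
      congr 1
      ring
    have h4 := h1.add (h3.const_mul 3)
    simpa using h4
  apply squeeze_zero' _ _ hlim
  · filter_upwards with n
    apply div_nonneg
    · apply Real.log_nonneg
      exact_mod_cast blocks_pos n
    · positivity
  · filter_upwards [eventually_gt_atTop 0] with n hn
    have hn' : (0 : ℝ) < n := by exact_mod_cast hn
    rw [← mul_div_assoc, ← add_div]
    apply div_le_div_of_nonneg_right _ hn'.le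
    have h1 : ((blocks (abClosure x) n).ncard : ℝ) ≤ 27 * ((n : ℝ) + 1) ^ 3 := by
      exact_mod_cast blocks_card n
    have h2 : (0 : ℝ) < (blocks (abClosure x) n).ncard := by
      have := blocks_pos n
      exact_mod_cast (show 0 < (blocks (abClosure x) n).ncard by omega)
    refine (Real.log_le_log h2 h1).trans ?_
    rw [Real.log_mul (by norm_num) (by positivity), Real.log_pow]
    norm_num

theorem x_two (k : ℕ) : x (3 * k + 2) = if fl (k + 1) = fl k then 0 else 1 := by
  unfold x
  have a1 : (3 * k + 2) % 3 = 2 := by omega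
  have a2 : (3 * k + 2) / 3 = k := by omega
  rw [a1, a2, if_neg (by norm_num), if_neg (by norm_num)]

theorem aperiodic : ¬ EventuallyPeriodic x := by
  rintro ⟨p, hp, N, h⟩
  apply not_eventually_periodic (α := β) (ρ := 0) β_pos.le β_irr
  refine ⟨p, hp, N, ?_⟩
  intro m hm
  have h3 : ∀ n ≥ N, x (n + 3 * p) = x n := by
    intro n hn
    have e : n + 3 * p = n + p + p + p := by ring
    rw [e, h _ (by omega), h _ (by omega), h _ hn]
  have h4 := h3 (3 * m + 2) (by omega)
  have e : 3 * m + 2 + 3 * p = 3 * (m + p) + 2 := by ring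
  rw [e, x_two, x_two] at h4
  have hm1 : ∀ k : ℕ, (mech β 0 k : ℤ) = fl (k + 1) - fl k := by
    intro k
    unfold mech
    have e1 : ⌊((k : ℝ) + 1) * β + 0⌋ = fl (k + 1) := by
      unfold fl; push_cast; rw [add_zero]
    have e2 : ⌊(k : ℝ) * β + 0⌋ = fl k := by
      unfold fl; rw [add_zero]
    rw [e1, e2]
    rcases fl_step k with h | h <;> omega
  have a1 := hm1 m
  have a2 := hm1 (m + p)
  rcases fl_step m with b1 | b1 <;> rcases fl_step (m + p) with b2 | b2
  · omega
  · rw [if_pos b1, if_neg (by omega)] at h4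
    exact absurd h4 (by decide)
  · rw [if_pos b2, if_neg (by omega)] at h4
    exact absurd h4 (by decide)
  · omega

/-- bounded gaps for returns of the rotation by `β` to a small interval -/
theorem return_times (θ ε : ℝ) (hε : 0 < ε) : ∃ G : ℕ, ∀ N : ℕ, ∃ b : ℕ, N ≤ b ∧ b ≤ N + G ∧
    ∃ k : ℤ, θ ≤ (b : ℝ) * β - k ∧ (b : ℝ) * β - k < θ + ε := by
  obtain ⟨m, hm⟩ := exists_nat_gt (1 / ε)
  have hmpos : 0 < m := by
    have : (0 : ℝ) < m := lt_trans (by positivity) hm
    exact_mod_cast this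
  obtain ⟨q, hq0, hqm, hq⟩ := Real.exists_nat_abs_mul_sub_round_le β hmpos
  set δ : ℝ := (q : ℝ) * β - round ((q : ℝ) * β) with hδ
  have hδε : |δ| < ε := by
    refine lt_of_le_of_lt hq ?_
    rw [div_lt_iff₀ (by positivity)]
    rw [div_lt_iff₀ hε] at hm
    nlinarith
  have hδ0 : δ ≠ 0 := by
    intro h
    have : Irrational ((q : ℝ) * β - round ((q : ℝ) * β)) :=
      (β_irr.natCast_mul (by omega)).sub_intCast _
    exact this ⟨0, by rw [← hδ, h]; simp⟩
  have hδpos : 0 < |δ| := abs_pos.2 hδ0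
  obtain ⟨J, hJ⟩ := exists_nat_gt (1 / |δ|)
  refine ⟨(J + 1) * q, ?_⟩
  intro N
  -- find j ≤ J + 1 and integer l with θ ≤ N β + j δ - l < θ + ε
  have key : ∃ j : ℕ, j ≤ J + 1 ∧ ∃ l : ℤ, θ ≤ (N : ℝ) * β + j * δ - l ∧
      (N : ℝ) * β + j * δ - l < θ + ε := by
    have hJ1 : 1 < J * |δ| := by
      rw [div_lt_iff₀ hδpos] at hJ
      exact hJ
    rcases lt_or_gt_of_ne hδ0 with hneg | hpos
    · rw [abs_of_neg hneg] at hδε hJ1
      set l : ℤ := ⌊(N : ℝ) * β - θ⌋ with hl
      have l1 := Int.floor_le ((N : ℝ) * β - θ)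
      have l2 := Int.lt_floor_add_one ((N : ℝ) * β - θ)
      rw [← hl] at l1 l2
      set t : ℝ := ((N : ℝ) * β - θ - l) / (-δ) with ht
      have ht0 : 0 ≤ t := div_nonneg (by linarith) (by linarith)
      have ht1 : t * (-δ) = (N : ℝ) * β - θ - l := by
        rw [ht]; field_simp
      refine ⟨⌊t⌋₊, ?_, l, ?_, ?_⟩
      · have h1 := Nat.floor_le ht0
        have h2 : t < J := by
          by_contra h3
          push Not at h3
          nlinarith
        have h3 : ((⌊t⌋₊ : ℕ) : ℝ) < J := lt_of_le_of_lt h1 h2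
        have : ⌊t⌋₊ < J := by exact_mod_cast h3
        omega
      · have h1 := Nat.floor_le ht0
        nlinarith
      · have h1 := Nat.lt_floor_add_one t
        nlinarith
    · rw [abs_of_pos hpos] at hδε hJ1
      set l : ℤ := ⌊(N : ℝ) * β - θ⌋ with hl
      have l1 := Int.floor_le ((N : ℝ) * β - θ)
      have l2 := Int.lt_floor_add_one ((N : ℝ) * β - θ)
      rw [← hl] at l1 l2
      set t : ℝ := (1 - ((N : ℝ) * β - θ - l)) / δ with ht
      have ht0 : 0 ≤ t := div_nonneg (by linarith) (by linarith)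
      have ht1 : t * δ = 1 - ((N : ℝ) * β - θ - l) := by
        rw [ht]; field_simp
      refine ⟨⌈t⌉₊, ?_, l + 1, ?_, ?_⟩
      · have h2 : t ≤ J := by
          by_contra h3
          push Not at h3
          nlinarith
        have : ⌈t⌉₊ ≤ J := Nat.ceil_le.2 h2
        omega
      · have h1 := Nat.le_ceil t
        push_cast
        nlinarith
      · have h1 := Nat.ceil_lt_add_one ht0
        push_cast
        nlinarith
  obtain ⟨j, hj, l, h1, h2⟩ := key
  refine ⟨N + j * q, by omega, ?_, l + j * round ((q : ℝ) * β), ?_, ?_⟩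
  · have := Nat.mul_le_mul_right q hj
    omega
  · push_cast
    rw [hδ] at h1
    linarith
  · push_cast
    rw [hδ] at h2
    linarith

theorem fl_returns (a L : ℕ) : ∃ G : ℕ, ∀ N : ℕ, ∃ b : ℕ, N ≤ b ∧ b ≤ N + G ∧
    ∀ k ≤ L, fl (b + k) - fl b = fl (a + k) - fl a := by
  set θ : ℝ := Int.fract ((a : ℝ) * β) with hθ
  -- choose ε
  obtain ⟨k₀, _, hk₀⟩ := (Finset.range (L + 1)).exists_min_image
    (fun k : ℕ => 1 - Int.fract (θ + k * β)) ⟨0, by simp⟩
  set ε : ℝ := 1 - Int.fract (θ + k₀ * β) with hε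
  have hεpos : 0 < ε := by
    have := Int.fract_lt_one (θ + k₀ * β)
    linarith
  obtain ⟨G, hG⟩ := return_times θ ε hεpos
  refine ⟨G, ?_⟩
  intro N
  obtain ⟨b, hb1, hb2, l, hl1, hl2⟩ := hG N
  refine ⟨b, hb1, hb2, ?_⟩
  have main : ∀ k ≤ L, fl (b + k) = l + (fl (a + k) - fl a) := by
    intro k hk
    have hmin : ε ≤ 1 - Int.fract (θ + k * β) := hk₀ k (by rw [Finset.mem_range]; omega)
    have e1 : fl (a + k) - fl a = ⌊θ + k * β⌋ := by
      unfold fl
      have : ((a + k : ℕ) : ℝ) * β = θ + k * β + ⌊(a : ℝ) * β⌋ := by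
        rw [hθ, Int.fract]
        push_cast
        ring
      rw [this, Int.floor_add_intCast]
      ring
    rw [e1]
    unfold fl
    rw [Int.floor_eq_iff]
    have f1 := Int.floor_le (θ + k * β)
    have f2 : Int.fract (θ + k * β) = θ + k * β - ⌊θ + k * β⌋ := rfl
    push_cast
    constructor
    · nlinarith
    · nlinarith
  intro k hk
  have h1 := main k hk
  have h2 := main 0 (by omega)
  simp only [add_zero] at h2
  omega

theorem unifRec : UniformlyRecurrent x := by
  intro i n
  obtain ⟨G, hG⟩ := fl_returns (i / 3) (n + 2)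
  refine ⟨3 * G + 6, ?_⟩
  intro N
  obtain ⟨b, hb1, hb2, hb⟩ := hG (N / 3 + 1)
  refine ⟨3 * b + i % 3, by omega, by omega, ?_⟩
  rw [factor_congr]
  intro j hj
  unfold x
  have e1 : (3 * b + i % 3 + j) % 3 = (i + j) % 3 := by omega
  rw [e1]
  have e2 : (3 * b + i % 3 + j) / 3 = b + (i % 3 + j) / 3 := by omega
  have e3 : (i + j) / 3 = i / 3 + (i % 3 + j) / 3 := by omega
  rw [e2, e3]
  have h1 := hb ((i % 3 + j) / 3) (by omega)
  have h2 := hb ((i % 3 + j) / 3 + 1) (by omega)
  rw [← add_assoc, ← add_assoc] at h2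
  have h3 : (fl (b + (i % 3 + j) / 3 + 1) = fl (b + (i % 3 + j) / 3)) ↔
      (fl (i / 3 + (i % 3 + j) / 3 + 1) = fl (i / 3 + (i % 3 + j) / 3)) := by
    constructor <;> intro h <;> omega
  simp only [h3]

theorem fl_vals : fl 0 = 0 ∧ fl 1 = 0 ∧ fl 2 = 0 ∧ fl 3 = 1 := by
  have h := sqrt2_bounds
  unfold fl β
  refine ⟨by simp, ?_, ?_, ?_⟩
  · rw [Int.floor_eq_iff]
    push_cast
    constructor <;> nlinarith [h.1, h.2]
  · rw [Int.floor_eq_iff]
    push_cast
    constructor <;> nlinarith [h.1, h.2]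
  · rw [Int.floor_eq_iff]
    push_cast
    constructor <;> nlinarith [h.1, h.2]

theorem not_sturmian : ¬ Sturmian x := by
  rintro ⟨-, h⟩
  have h2 := h 2
  have hfin : (factors x 2).Finite := by
    have : factors x 2 ⊆ {l : List (Fin 2) | l.length = 2} := by
      rintro v ⟨i, rfl⟩
      exact factor_length _ _ _
    exact (List.finite_length_eq (Fin 2) 2).subset this
  obtain ⟨f0, f1, f2, f3⟩ := fl_vals
  have x0 : x 0 = 1 := by simp [x]
  have x1 : x 1 = 0 := by simp [x]
  have x2 : x 2 = 0 := by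
    have := x_two 0
    simp only [mul_zero, zero_add, f0, f1, if_true] at this
    exact this
  have x7 : x 7 = 0 := by simp [x]
  have x8 : x 8 = 1 := by
    have := x_two 2
    have e : 2 + 1 = 3 := rfl
    simp only [e, f2, f3] at this
    simpa using this
  have x9 : x 9 = 1 := by simp [x]
  have hf : ∀ i, factor x i 2 = [x i, x (i + 1)] := by
    intro i
    have : List.range 2 = [0, 1] := rfl
    simp [factor, this]
  have hsub : (({[1, 0], [0, 0], [0, 1], [1, 1]} : Finset (List (Fin 2))) : Set (List (Fin 2))) ⊆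
      factors x 2 := by
    intro v hv
    simp only [Finset.coe_insert, Finset.coe_singleton, Set.mem_insert_iff,
      Set.mem_singleton_iff] at hv
    rcases hv with rfl | rfl | rfl | rfl
    · exact ⟨0, by rw [hf, x0, x1]⟩
    · exact ⟨1, by rw [hf, x1, x2]⟩
    · exact ⟨7, by rw [hf, x7, x8]⟩
    · exact ⟨8, by rw [hf, x8, x9]⟩
  have := Set.ncard_le_ncard hsub hfin
  rw [h2, Set.ncard_coe_finset] at this
  revert this
  decide

/-- There is a uniformly recurrent, aperiodic, non-Sturmian binary word whose abelian closure has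
topological entropy zero; moreover the number of blocks of length `n` is at most
`27 (n+1)^3`. -/
theorem result : ∃ x : ℕ → Fin 2, UniformlyRecurrent x ∧ ¬ EventuallyPeriodic x ∧ ¬ Sturmian x ∧
    Tendsto (fun n : ℕ => Real.log ((blocks (abClosure x) n).ncard : ℝ) / n) atTop (𝓝 0) ∧
    ∀ n : ℕ, (blocks (abClosure x) n).ncard ≤ 27 * (n + 1) ^ 3 :=
  ⟨x, unifRec, aperiodic, not_sturmian, entropy_zero, blocks_card⟩

end Pool.Agent.Results.MP_1706f7_co.ZeroEntropy
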